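import Mathlib

set_option autoImplicit false

namespace Pool.Agent.Results.MP_6cf06e_an.RealHalf

open scoped unitInterval

/-- The norm of the 2-homogeneous polynomial `x ↦ A x x`: the supremum of `‖A x x‖` over the unit
sphere. -/
noncomputable def polyNorm {X : Type} [NormedAddCommGroup X] [NormedSpace ℝ X]
    (A : X →L[ℝ] X →L[ℝ] X) : ℝ :=
  sSup {r : ℝ | ∃ x : X, ‖x‖ = 1 ∧ r = ‖A x x‖}

/-- The numerical radius of `x ↦ A x x`: the supremum of `|φ (A x x)|` over all `x` of norm one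
and all functionals `φ` of norm one with `φ x = 1`. -/
noncomputable def numRadius {X : Type} [NormedAddCommGroup X] [NormedSpace ℝ X]
    (A : X →L[ℝ] X →L[ℝ] X) : ℝ :=
  sSup {r : ℝ | ∃ (x : X) (φ : X →L[ℝ] ℝ), ‖x‖ = 1 ∧ ‖φ‖ = 1 ∧ φ x = 1 ∧ r = |φ (A x x)|}

/-- The second polynomial numerical index of a real normed space: the infimum of the numerical
radii of the norm-one 2-homogeneous polynomials. -/
noncomputable def index2 (X : Type) [NormedAddCommGroup X] [NormedSpace ℝ X] : ℝ :=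
  sInf {r : ℝ | ∃ A : X →L[ℝ] X →L[ℝ] X, polyNorm A = 1 ∧ r = numRadius A}

abbrev X : Type := C(I, ℝ)

noncomputable def E0 : X →L[ℝ] ℝ := ContinuousMap.evalCLM ℝ (0 : I)

noncomputable def A : X →L[ℝ] X →L[ℝ] X :=
  E0.smulRight (E0.smulRight (1 : X)) - (1 / 2 : ℝ) • ContinuousLinearMap.mul ℝ X

theorem A_apply (x : X) : A x x = (x 0 * x 0) • (1 : X) - (1 / 2 : ℝ) • (x * x) := by
  simp [A, E0, smul_smul]

theorem A_apply_apply (x : X) (t : I) : A x x t = x 0 * x 0 - 1 / 2 * (x t * x t) := by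
  rw [A_apply]
  simp

theorem abs_le_of_norm {x : X} (hx : ‖x‖ ≤ 1) (t : I) : |x t| ≤ 1 := by
  have := x.norm_coe_le_norm t
  rw [Real.norm_eq_abs] at this
  linarith

theorem sq_le {a : ℝ} (h : |a| ≤ 1) : a * a ≤ 1 := by
  have := abs_le.1 h
  nlinarith [this.1, this.2]

theorem norm_A_le {x : X} (hx : ‖x‖ ≤ 1) : ‖A x x‖ ≤ 1 := by
  rw [ContinuousMap.norm_le _ zero_le_one]
  intro t
  rw [A_apply_apply, Real.norm_eq_abs, abs_le]
  have h0 := sq_le (abs_le_of_norm hx 0)
  have h1 := sq_le (abs_le_of_norm hx t)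
  constructor <;> nlinarith [mul_self_nonneg (x 0), mul_self_nonneg (x t)]

/-- the function `t ↦ 1 - t` -/
noncomputable def w : X := ⟨fun t => 1 - (t : ℝ), by fun_prop⟩

theorem w_norm : ‖w‖ = 1 := by
  apply le_antisymm
  · rw [ContinuousMap.norm_le _ zero_le_one]
    intro t
    show ‖1 - (t : ℝ)‖ ≤ 1
    rw [Real.norm_eq_abs, abs_le]
    constructor <;> linarith [t.2.1, t.2.2]
  · have := w.norm_coe_le_norm 0
    have h : w 0 = 1 := by show 1 - ((0 : I) : ℝ) = 1; simp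
    rw [h] at this
    simpa using this

theorem polyNorm_A : polyNorm A = 1 := by
  have hmem : (1 : ℝ) ∈ {r : ℝ | ∃ x : X, ‖x‖ = 1 ∧ r = ‖A x x‖} := by
    refine ⟨w, w_norm, ?_⟩
    apply le_antisymm
    · have := (A w w).norm_coe_le_norm 1
      rw [A_apply_apply] at this
      have h0 : w 0 = 1 := by show 1 - ((0 : I) : ℝ) = 1; simp
      have h1 : w 1 = 0 := by show 1 - ((1 : I) : ℝ) = 0; simp
      rw [h0, h1] at this
      simpa using this
    · exact norm_A_le w_norm.le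
  have hbd : ∀ r ∈ {r : ℝ | ∃ x : X, ‖x‖ = 1 ∧ r = ‖A x x‖}, r ≤ 1 := by
    rintro r ⟨x, hx, rfl⟩
    exact norm_A_le hx.le
  exact le_antisymm (csSup_le ⟨1, hmem⟩ hbd) (le_csSup ⟨1, hbd⟩ hmem)

theorem radius_le (x : X) (φ : X →L[ℝ] ℝ) (hx : ‖x‖ = 1) (hφ : ‖φ‖ = 1) (h : φ x = 1) :
    |φ (A x x)| ≤ 1 / 2 := by
  have key : ∀ s : ℝ, |s| ≤ 1 / 2 → s * φ (1 - x * x) ≤ 0 := by
    intro s hs
    have hn : ‖x + s • (1 - x * x)‖ ≤ 1 := by
      rw [ContinuousMap.norm_le _ zero_le_one]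
      intro t
      have ht := abs_le.1 (abs_le_of_norm hx.le t)
      have hs' := abs_le.1 hs
      show ‖x t + s * (1 - x t * x t)‖ ≤ 1
      rw [Real.norm_eq_abs, abs_le]
      constructor
      · have : 0 ≤ (1 + x t) * (1 + s * (1 - x t)) :=
          mul_nonneg (by linarith) (by nlinarith)
        nlinarith
      · have : 0 ≤ (1 - x t) * (1 - s * (1 + x t)) :=
          mul_nonneg (by linarith) (by nlinarith)
        nlinarith
    have h1 : φ (x + s • (1 - x * x)) ≤ 1 := by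
      refine (le_abs_self _).trans ?_
      have := φ.le_opNorm (x + s • (1 - x * x))
      rw [hφ, one_mul, Real.norm_eq_abs] at this
      exact this.trans hn
    rw [map_add, map_smul, h, smul_eq_mul] at h1
    linarith
  have hz : φ (1 - x * x) = 0 := by
    have h1 := key (1 / 2) (by norm_num [abs_of_pos])
    have h2 := key (-(1 / 2)) (by rw [abs_neg]; norm_num [abs_of_pos])
    linarith
  have hxx : φ (x * x) = φ 1 := by
    rw [map_sub] at hz
    linarith
  have h1n : |φ 1| ≤ 1 := by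
    have := φ.le_opNorm (1 : X)
    rw [hφ, one_mul, Real.norm_eq_abs, norm_one] at this
    exact this
  rw [A_apply, map_sub, map_smul, map_smul, hxx, smul_eq_mul, smul_eq_mul, ← sub_mul, abs_mul]
  have h0 := sq_le (abs_le_of_norm hx.le 0)
  have h0' := mul_self_nonneg (x 0)
  have hc : |x 0 * x 0 - 1 / 2| ≤ 1 / 2 := by
    rw [abs_le]
    constructor <;> linarith
  calc |x 0 * x 0 - 1 / 2| * |φ 1| ≤ (1 / 2) * 1 :=
        mul_le_mul hc h1n (abs_nonneg _) (by norm_num)
    _ = 1 / 2 := by norm_num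

/-- The second polynomial numerical index of the real space `C[0,1]` is at most `1/2`;
in particular it is not `1`. -/
theorem result : index2 C(I, ℝ) ≤ 1 / 2 ∧ index2 C(I, ℝ) ≠ 1 := by
  have hle : index2 C(I, ℝ) ≤ 1 / 2 := by
    have hm : numRadius A ∈
        {r : ℝ | ∃ B : X →L[ℝ] X →L[ℝ] X, polyNorm B = 1 ∧ r = numRadius B} :=
      ⟨A, polyNorm_A, rfl⟩
    have hb : BddBelow {r : ℝ | ∃ B : X →L[ℝ] X →L[ℝ] X, polyNorm B = 1 ∧ r = numRadius B} := by
      refine ⟨0, ?_⟩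
      rintro r ⟨B, _, rfl⟩
      apply Real.sSup_nonneg
      rintro s ⟨x, φ, _, _, _, rfl⟩
      exact abs_nonneg _
    have hr : numRadius A ≤ 1 / 2 := by
      apply Real.sSup_le
      · rintro s ⟨x, φ, hx, hφ, h, rfl⟩
        exact radius_le x φ hx hφ h
      · norm_num
    exact (csInf_le hb hm).trans hr
  exact ⟨hle, by intro h; rw [h] at hle; norm_num at hle⟩

end Pool.Agent.Results.MP_6cf06e_an.RealHalf
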